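import Mathlib
import Pool.Agent.H60K.Base

/-!
Statements of the elementary parts of the second main theorem for general hypersurfaces
(`MP_b509a1_ag`), with proofs.
-/

set_option autoImplicit false

namespace Pool.Agent.H60S

open MvPolynomial Pool.Agent.V1153.UG

/-- (VEC) Bounded generic vectors orthogonal to a bounded set.

Proof. As the box is finite there are only finitely many sets `R`, so it suffices to find, for each
`R`, a vector `b` without a bound (as in `Pool.Agent.H60K.bounded_vectors`, take the maximum with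
`hbox.finite_subsets`). Fix `R`. Call `q` bad if `N • q` is in the subgroup generated by `R` for some
`N > 0`. (i) If `q` is not bad there is `b` in `ℤ^m`, orthogonal to `R`, with `∑ q i * b i ≠ 0`: the
set `W` of the `v` in `ℚ^m` such that `N • v` is (the image of) an element of the subgroup generated
by `R` for some `N > 0` is a `ℚ`-subspace which does not contain `q`; there is a linear functional `φ`
on `ℚ^m` which vanishes on `W` but not at `q` (`Submodule.exists_le_ker_of_notMem`); multiply the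
`φ (Pi.single i 1)` by a common denominator. (ii) For each finite set `Q` of vectors which are not bad
there is one `b` orthogonal to `R` with `∑ q i * b i ≠ 0` for all `q` in `Q`, by induction: if `b` is
good for `Q` but orthogonal to `q₀`, take `T b + b₀`, with `b₀` from (i) for `q₀` and an integer
`T > |∑ q i * b₀ i|` for all `q` in `Q`. (iii) Take for `Q` the vectors of the box which are not bad. -/
def S_VEC : Prop := ∀ m M : ℕ, ∃ B : ℕ, ∀ R : Set (Fin m → ℤ),
  (∀ q ∈ R, ∀ i, |q i| ≤ (M : ℤ)) →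
  ∃ b : Fin m → ℤ, (∀ i, |b i| ≤ (B : ℤ)) ∧ (∀ q ∈ R, ∑ i, q i * b i = 0) ∧
    ∀ q : Fin m → ℤ, (∀ i, |q i| ≤ (M : ℤ)) → ∑ i, q i * b i = 0 →
      ∃ N : ℕ, 0 < N ∧ N • q ∈ AddSubgroup.closure R

/-- (IND) Linear relations over a differential subfield.

Proof. (1) Claim: if `v i / v j ∉ K` for all `i ≠ j` in a finite set `s` (and the other hypotheses hold)
then `∑ a i * v i = 0` implies `a i = 0` for all `i ∈ s`. Induction on `s.card`. Let `a i₀ ≠ 0`. Put
`x i = (a i * v i) / (a i₀ * v i₀)`; then `∑ x i = 0`, `x i₀ = 1`, `D (x i) = ℓ i * x i` with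
`ℓ i = D (a i) / a i + D (v i) / v i - D (a i₀) / a i₀ - D (v i₀) / v i₀ ∈ K` if `a i ≠ 0` (and
`x i = 0` otherwise; in any case `D (x i) = (c i * v i) / v i₀` with `c i ∈ K`). Hence
`∑_{i ∈ s.erase i₀} c i * v i = 0`, by induction `c i = 0`, `D (x i) = 0`, so `x i ∈ K` (hypothesis on
the constants), and if `a i ≠ 0` this gives `v i / v i₀ ∈ K`, a contradiction; so `a i = 0` for all
`i ≠ i₀` and `0 = ∑ a i * v i = a i₀ * v i₀`, a contradiction.
(2) The relation `v i / v j ∈ K` is an equivalence relation. Choose for each class which meets `s` a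
representative in `s`. Then `∑_{i ∈ s} a i * v i = ∑_c A c * v (rep c)`, with
`A c = ∑_{i ∈ s, i in c} a i * (v i / v (rep c)) ∈ K`, so all `A c = 0` by (1) (applied to the set of
the representatives). The sum over the `i ∈ s` with `f i = w` is the sum of `A c * v (rep c)` over the
classes `c` with `f (rep c) = w`. -/
def S_IND : Prop := ∀ (M ι : Type) [Field M] [Algebra ℂ M] (D : Derivation ℂ M M)
  (K : IntermediateField ℂ M), (∀ x ∈ K, D x ∈ K) → (∀ x, D x = 0 → x ∈ K) →
  ∀ v : ι → M, (∀ i, v i ≠ 0) →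
  ∀ s : Finset ι, (∀ i ∈ s, ∀ j ∈ s, D (v i) / v i - D (v j) / v j ∈ K) →
  ∀ a : ι → M, (∀ i ∈ s, a i ∈ K) → ∑ i ∈ s, a i * v i = 0 →
  ∀ f : ι → ℤ, (∀ i ∈ s, ∀ j ∈ s, v i / v j ∈ K → f i = f j) → ∀ w : ℤ,
    ∑ i ∈ s with f i = w, a i * v i = 0

/-- (GMC) If a hypersurface contains no nonconstant rational curve of bounded degree, then the curves
`t ↦ P(h t ^ b)` in it are constant; comparison of the coefficients.

Proof. This is a variant of `Pool.Agent.H60K.gm_of` (see `Pool/Agent/H60K/Base.lean`), for the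
polynomials `P j = ∑ α ∈ A, monomial α (a j α)` (`degreeOf` at most `e`), or directly for the
polynomials `T j = ∑ α ∈ A, C (a j α * ∏ i, h i ^ α i) * X ^ ((m * e * B + ∑ i, α i * b i).toNat)` of
degree at most `2 * (m * e * B)`, `(T j).eval t = t ^ (m * e * B) * ∑ α ∈ A, ... (h i * t ^ b i)`.
The fields `deg`, `mem`, `off` of `GmBdd` hold as in `gm_of`; so `nc` fails:
`(T j).eval s * (T l).eval t = (T l).eval s * (T j).eval t` for all `s, t, j, l`. With `s = 1` this
is an identity of polynomials in `t`: `C (P_j(h)) * T l = C (P_l(h)) * T j`. Compare the coefficients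
of `X ^ (m * e * B + w)` if `|w| ≤ m * e * B`; for other `w` both filtered sums are empty. -/
def S_GMC : Prop := ∀ (n m d e B : ℕ) (F : MvPolynomial (Fin (n + 1)) ℂ), F.IsHomogeneous d →
  (∀ T, ¬ GmBdd (Ideal.span {F}) 1 (2 * (m * e * B)) T) →
  ∀ A : Finset (Fin m →₀ ℕ), (∀ α ∈ A, ∀ i, α i ≤ e) →
  ∀ (a : Fin (n + 1) → (Fin m →₀ ℕ) → ℂ) (h : Fin m → ℂ) (b : Fin m → ℤ),
  (∀ i, |b i| ≤ (B : ℤ)) →
  (∀ t : ℂ, t ≠ 0 → eval (fun j => ∑ α ∈ A, a j α * ∏ i, (h i * t ^ b i) ^ α i) F = 0) →
  ∀ (j l : Fin (n + 1)) (w : ℤ),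
    (∑ α ∈ A with ∑ i, (α i : ℤ) * b i = w, a j α * ∏ i, h i ^ α i) *
        (∑ α ∈ A, a l α * ∏ i, h i ^ α i) =
      (∑ α ∈ A with ∑ i, (α i : ℤ) * b i = w, a l α * ∏ i, h i ^ α i) *
        (∑ α ∈ A, a j α * ∏ i, h i ^ α i)

end Pool.Agent.H60S
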