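import Mathlib
import Pool.Agent.N131.SR.Alg

/-!
Curves of logarithmic growth (for `MP_b509a1_ag`): statements with proofs.
-/

set_option autoImplicit false

namespace Pool.Agent.H60S

open Real

/-- (POL) Entire functions of logarithmic growth along a sequence of radii are polynomials.

Proof. Use `Pool/Agent/Helper551/NevJ664.lean` (namespace `NevT.J664`): `submean_area`, `ball_avg`,
`T_mono`, `T_eq_circleAverage`. Let `A(r)` be the circle average of `log⁺ ‖f‖` over the circle of the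
radius `r`; it is monotone in `r > 0` (`T_mono`). For `‖w‖ ≤ r / 2`: by `submean_area` with
`s = r / 2`, `π (r/2)^2 log⁺ ‖f w‖ ≤ ∫_{B(w, r/2)} log⁺ ‖f‖ ≤ ∫_{B(0, r)} log⁺ ‖f‖`, and by `ball_avg`
(with `c = 0`) the last integral is `∫_{ζ ∈ B(0, r)} A(‖ζ‖) ≤ π r^2 A(r)`; so `log⁺ ‖f w‖ ≤ 4 A(r)`.
For the radii `r` of the hypothesis, `‖f w‖ ≤ exp (4 C) r ^ (4 D)` on `‖w‖ = r / 2`. The Cauchy
estimate (`Complex.norm_iteratedDeriv_le_of_forall_mem_sphere_norm_le`) gives
`‖iteratedDeriv k f 0‖ ≤ k! exp (4 C) r ^ (4 D) / (r / 2) ^ k`, which tends to zero along these radii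
if `k > 4 |D|`. So these derivatives vanish, and the Taylor series (`Complex.taylorSeries_eq_of_entire'`)
is a polynomial of degree at most `4 |D|`. -/
def S_POL : Prop := ∀ f : ℂ → ℂ, Differentiable ℂ f → ∀ D C : ℝ,
  (∀ R : ℝ, ∃ r, R ≤ r ∧ circleAverage (fun z => log⁺ ‖f z‖) 0 r ≤ D * Real.log r + C) →
  ∃ q : Polynomial ℂ, (q.natDegree : ℝ) ≤ 4 * |D| ∧ ∀ z, f z = q.eval z

/-- (RAT) Curves of logarithmic growth along a sequence of radii are rational.

Proof. Choose `l` with `g l 0 ≠ 0`. Use `Pool/Agent/H159R3/NV/Factor.lean` (namespace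
`Pool.Agent.H159R3.NV`): `P Z` is the monic polynomial with the list `Z` of zeros.
(a) If `g l z = P Z z * v z` for all `z`, with `v` entire, then `Z.length ≤ D`: by `count_le`,
`Z.length * log (R / ρ) ≤ L (g l) R - log ‖g l 0‖` for `R > ρ`, if the members of `Z` are of modulus at
most `ρ`; `L (g l) R` is the mean of `log ‖g l‖`, which is at most `Tf g R` (where `g l ≠ 0` this is
`‖g l z‖ ≤ ‖g z‖`; compare `ratio_le` and `f_avg` in `Pool/Agent/N131/SR/Alg.lean`, and
`Pool.Agent.Helper160.Nev.circleAverage_mono_codiscrete`); divide by `log R`, `R → ∞` along the radii of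
the hypothesis.
(b) Take such a factorization with `Z.length` maximal. Then `v` has no zeros, since a zero `a` of `v`
gives the longer factorization `a :: Z`, `dslope v a` (`dslope_fac`, `dslope_diff`).
(c) `f j = g j / v` is entire and equal to `P Z * (g j / g l)` outside the zeros of `g l`, so
(`char_mul`, `ratio_le`) `T(r, f j) ≤ T(r, P Z) + T(r, g j / g l) ≤ Z.length * log r + Tf g r + c`
for `r ≥ 1`, and `T(r, f j)` is the circle average of `log⁺ ‖f j‖` (`NevT.J664.T_eq_characteristic`,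
`T_eq_circleAverage`). By (POL), with `2 D` in place of `D`, `f j` is a polynomial of degree at most
`8 D`. -/
def S_RAT : Prop := ∀ (n : ℕ) (g : Fin (n + 1) → ℂ → ℂ), (∀ j, Differentiable ℂ (g j)) →
  (∀ z, ∃ j, g j z ≠ 0) → ∀ D C : ℝ, 0 ≤ D →
  (∀ R : ℝ, ∃ r, R ≤ r ∧ Pool.Agent.N131.SR.Tf g r ≤ D * Real.log r + C) →
  ∃ (q : Fin (n + 1) → Polynomial ℂ) (v : ℂ → ℂ), (∀ j, ((q j).natDegree : ℝ) ≤ 8 * D) ∧
    (∀ z, v z ≠ 0) ∧ ∀ j z, g j z = v z * (q j).eval z

end Pool.Agent.H60S
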