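import Pool.Agent.H60S.Stm

set_option autoImplicit false
set_option linter.unusedSectionVars false
set_option linter.unusedVariables false

namespace Pool.Agent.H60S

open MvPolynomial Pool.Agent.V1153.UG

theorem GMC_zpow_sum {ι : Type} {t : ℂ} (ht : t ≠ 0) (s : Finset ι) (g : ι → ℤ) :
    ∏ i ∈ s, t ^ g i = t ^ ∑ i ∈ s, g i := by
  classical
  induction s using Finset.induction_on with
  | empty => simp
  | @insert i s hi ih => rw [Finset.prod_insert hi, Finset.sum_insert hi, zpow_add₀ ht, ih]

theorem t_GMC : S_GMC := by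
  classical
  intro n m d e B F hF hno A hA a h b hb hz
  set N : ℕ := m * e * B with hN
  -- the weights
  let wt : (Fin m →₀ ℕ) → ℤ := fun α => ∑ i, (α i : ℤ) * b i
  have hwt : ∀ α ∈ A, |wt α| ≤ (N : ℤ) := by
    intro α hα
    refine (Finset.abs_sum_le_sum_abs _ _).trans ?_
    have h1 : ∀ i ∈ (Finset.univ : Finset (Fin m)), |(α i : ℤ) * b i| ≤ (e : ℤ) * B := by
      intro i _
      rw [abs_mul, Nat.abs_cast]
      have h2 : (α i : ℤ) ≤ e := by exact_mod_cast hA α hα i
      exact mul_le_mul h2 (hb i) (abs_nonneg _) (by positivity)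
    refine (Finset.sum_le_card_nsmul _ _ _ h1).trans ?_
    rw [Finset.card_univ, Fintype.card_fin, nsmul_eq_mul, hN]
    push_cast
    exact le_of_eq (by ring)
  have hcast : ∀ α ∈ A, (((N + wt α).toNat : ℕ) : ℤ) = N + wt α := by
    intro α hα
    have := abs_le.1 (hwt α hα)
    exact Int.toNat_of_nonneg (by linarith [this.1])
  let T : Fin (n + 1) → Polynomial ℂ := fun j =>
    ∑ α ∈ A, Polynomial.C (a j α * ∏ i, h i ^ α i) * Polynomial.X ^ ((N + wt α).toNat)
  have hTev : ∀ j t, (T j).eval t = ∑ α ∈ A, (a j α * ∏ i, h i ^ α i) * t ^ ((N + wt α).toNat) := by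
    intro j t
    show (∑ α ∈ A, Polynomial.C (a j α * ∏ i, h i ^ α i) *
      Polynomial.X ^ ((N + wt α).toNat)).eval t = _
    rw [Polynomial.eval_finsetSum]
    exact Finset.sum_congr rfl fun α _ => by
      rw [Polynomial.eval_mul, Polynomial.eval_C, Polynomial.eval_pow, Polynomial.eval_X]
  have hT1 : ∀ j, (T j).eval 1 = ∑ α ∈ A, a j α * ∏ i, h i ^ α i := by
    intro j
    rw [hTev]
    exact Finset.sum_congr rfl fun α _ => by rw [one_pow, mul_one]
  have hTt : ∀ j (t : ℂ), t ≠ 0 → (T j).eval t =
      t ^ N * ∑ α ∈ A, a j α * ∏ i, (h i * t ^ b i) ^ α i := by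
    intro j t ht
    rw [hTev, Finset.mul_sum]
    refine Finset.sum_congr rfl fun α hα => ?_
    have h1 : ∏ i, (h i * t ^ b i) ^ α i = (∏ i, h i ^ α i) * t ^ wt α := by
      simp only [mul_pow]
      rw [Finset.prod_mul_distrib]
      congr 1
      have h2 : ∀ i ∈ (Finset.univ : Finset (Fin m)), (t ^ b i) ^ α i = t ^ ((α i : ℤ) * b i) := by
        intro i _
        rw [mul_comm, zpow_mul, zpow_natCast]
      rw [Finset.prod_congr rfl h2]
      exact GMC_zpow_sum ht Finset.univ fun i => (α i : ℤ) * b i
    rw [h1]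
    have h3 : t ^ ((N + wt α).toNat) = t ^ N * t ^ wt α := by
      rw [← zpow_natCast, hcast α hα, zpow_add₀ ht, zpow_natCast]
    rw [h3]
    ring
  have hdeg : ∀ j, (T j).natDegree ≤ 2 * N := by
    intro j
    refine Polynomial.natDegree_sum_le_of_forall_le _ _ fun α hα => ?_
    refine (Polynomial.natDegree_C_mul_X_pow_le _ _).trans ?_
    have h1 := hcast α hα
    have h2 := abs_le.1 (hwt α hα)
    have : (((N + wt α).toNat : ℕ) : ℤ) ≤ ((2 * N : ℕ) : ℤ) := by
      rw [h1]; push_cast; linarith [h2.2]
    exact_mod_cast this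
  have hmem : ∀ G ∈ Ideal.span {F}, (∃ k, G.IsHomogeneous k) → aeval T G = 0 := by
    have h1 : aeval T F = 0 := by
      apply Polynomial.eq_zero_of_infinite_isRoot
      have h2 : {t : ℂ | t ≠ 0} ⊆ {t | Polynomial.IsRoot (aeval T F) t} := by
        intro t ht
        change Polynomial.eval t _ = 0
        have h3 : Polynomial.eval t (aeval T F) = eval (fun j => (T j).eval t) F := by
          rw [aeval_def, ← Polynomial.coe_evalRingHom, hom_eval₂]
          rw [eval, coe_eval₂Hom]
          congr 1
          ext x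
          simp
        rw [h3]
        have h4 : (fun j => (T j).eval t) = fun j =>
            t ^ N * ∑ α ∈ A, a j α * ∏ i, (h i * t ^ b i) ^ α i := funext fun j => hTt j t ht
        rw [h4, eval_eq']
        have h5 : ∀ β ∈ F.support, coeff β F * ∏ j, (t ^ N *
            ∑ α ∈ A, a j α * ∏ i, (h i * t ^ b i) ^ α i) ^ β j = (t ^ N) ^ d *
            (coeff β F * ∏ j, (∑ α ∈ A, a j α * ∏ i, (h i * t ^ b i) ^ α i) ^ β j) := by
          intro β hβ
          simp only [mul_pow _ (∑ α ∈ A, _), Finset.prod_mul_distrib]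
          rw [Finset.prod_pow_eq_pow_sum]
          have h6 : ∑ j, β j = d := by
            rw [← Finsupp.degree_eq_sum]
            have := hF (mem_support_iff.1 hβ)
            rwa [Finsupp.degree_eq_weight_one]
          rw [h6]
          ring
        rw [Finset.sum_congr rfl h5, ← Finset.mul_sum, ← eval_eq', hz t ht, mul_zero]
      refine Set.Infinite.mono h2 ?_
      have h3 : {t : ℂ | t ≠ 0} = ({0} : Set ℂ)ᶜ := by
        ext t
        simp
      rw [h3]
      exact Set.Finite.infinite_compl (Set.finite_singleton 0)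
    intro G hG _
    have h2 : Ideal.span {F} ≤ RingHom.ker (aeval T : MvPolynomial (Fin (n + 1)) ℂ →ₐ[ℂ] _) := by
      rw [Ideal.span_le, Set.singleton_subset_iff]
      exact h1
    exact h2 hG
  have hnc : ∀ s t j k, (T j).eval s * (T k).eval t = (T k).eval s * (T j).eval t := by
    by_contra hcon
    push Not at hcon
    exact hno T ⟨hdeg, hmem, ⟨1, 0, one_ne_zero, by simp⟩, hcon⟩
  intro j l w
  have hpoly : Polynomial.C ((T j).eval 1) * T l = Polynomial.C ((T l).eval 1) * T j := by
    apply Polynomial.funext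
    intro t
    rw [Polynomial.eval_mul, Polynomial.eval_mul, Polynomial.eval_C, Polynomial.eval_C]
    exact hnc 1 t j l
  by_cases hw : |w| ≤ (N : ℤ)
  · have hwn : (((N + w).toNat : ℕ) : ℤ) = N + w := by
      have := abs_le.1 hw
      exact Int.toNat_of_nonneg (by linarith [this.1])
    have hco : ∀ j, (T j).coeff ((N + w).toNat) =
        ∑ α ∈ A with ∑ i, (α i : ℤ) * b i = w, a j α * ∏ i, h i ^ α i := by
      intro j
      show (∑ α ∈ A, Polynomial.C (a j α * ∏ i, h i ^ α i) *
        Polynomial.X ^ ((N + wt α).toNat)).coeff _ = _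
      rw [Polynomial.finsetSum_coeff, Finset.sum_filter]
      refine Finset.sum_congr rfl fun α hα => ?_
      rw [Polynomial.coeff_C_mul_X_pow]
      have hiff : ((N + w).toNat = (N + wt α).toNat) ↔ ∑ i, (α i : ℤ) * b i = w := by
        have h1 := hcast α hα
        constructor
        · intro h2
          have h3 : (((N + w).toNat : ℕ) : ℤ) = (((N + wt α).toNat : ℕ) : ℤ) := by rw [h2]
          rw [h1, hwn] at h3
          show wt α = w
          linarith
        · intro h2
          have h3 : wt α = w := h2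
          rw [h3]
      exact if_congr hiff rfl rfl
    have h1 := congrArg (fun p => p.coeff ((N + w).toNat)) hpoly
    simp only [Polynomial.coeff_C_mul] at h1
    rw [hco, hco, hT1, hT1] at h1
    rw [mul_comm, ← h1, mul_comm]
  · have hemp : A.filter (fun α => ∑ i, (α i : ℤ) * b i = w) = ∅ := by
      rw [Finset.filter_eq_empty_iff]
      intro α hα h1
      exact hw (by rw [← h1]; exact hwt α hα)
    rw [hemp, Finset.sum_empty, Finset.sum_empty, zero_mul, zero_mul]

end Pool.Agent.H60S
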