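import Pool.Agent.H60S.Stm

set_option autoImplicit false
set_option linter.unusedSectionVars false
set_option linter.unusedVariables false

namespace Pool.Agent.H60S

open MvPolynomial Pool.Agent.V1153.UG

theorem t_IND : S_IND := by
  classical
  intro M ι _ _ D K hDK hconst v hv
  -- pairwise incommensurable elements
  have key : ∀ (n : ℕ) (s : Finset ι), s.card = n →
      (∀ i ∈ s, ∀ j ∈ s, D (v i) / v i - D (v j) / v j ∈ K) →
      (∀ i ∈ s, ∀ j ∈ s, i ≠ j → v i / v j ∉ K) → ∀ a : ι → M, (∀ i ∈ s, a i ∈ K) →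
      ∑ i ∈ s, a i * v i = 0 → ∀ i ∈ s, a i = 0 := by
    intro n
    induction n with
    | zero =>
      intro s hs _ _ a _ _ i hi
      rw [Finset.card_eq_zero] at hs
      subst hs
      simp at hi
    | succ n ih =>
      intro s hs hlog hne a ha hsum i₀ hi₀
      by_contra h0
      have hv0 := hv i₀
      have hq : ∀ i ∈ s, a i / a i₀ ∈ K := fun i hi => K.div_mem (ha i hi) (ha i₀ hi₀)
      have hDx : ∀ i, D ((a i / a i₀) * (v i / v i₀)) =
          (D (a i / a i₀) + (a i / a i₀) * (D (v i) / v i - D (v i₀) / v i₀)) * (v i / v i₀) := by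
        intro i
        have hvi := hv i
        rw [Derivation.leibniz, Derivation.leibniz_div D (v i) (v i₀)]
        simp only [smul_eq_mul]
        field_simp
        ring
      have hsumx : ∑ i ∈ s, (a i / a i₀) * (v i / v i₀) = 0 := by
        have h1 : ∀ i ∈ s, (a i / a i₀) * (v i / v i₀) = (a i * v i) * (1 / (a i₀ * v i₀)) := by
          intro i _
          field_simp
        rw [Finset.sum_congr rfl h1, ← Finset.sum_mul, hsum, zero_mul]
      have hsumc : ∑ i ∈ s, (D (a i / a i₀) +
          (a i / a i₀) * (D (v i) / v i - D (v i₀) / v i₀)) * v i = 0 := by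
        have h1 := congrArg D hsumx
        rw [map_sum, map_zero, Finset.sum_congr rfl fun i _ => hDx i] at h1
        have h2 : ∀ i ∈ s, (D (a i / a i₀) +
            (a i / a i₀) * (D (v i) / v i - D (v i₀) / v i₀)) * v i = ((D (a i / a i₀) +
            (a i / a i₀) * (D (v i) / v i - D (v i₀) / v i₀)) * (v i / v i₀)) * v i₀ := by
          intro i _
          field_simp
        rw [Finset.sum_congr rfl h2, ← Finset.sum_mul, h1, zero_mul]
      have hc0 : (D (a i₀ / a i₀) +
          (a i₀ / a i₀) * (D (v i₀) / v i₀ - D (v i₀) / v i₀)) * v i₀ = 0 := by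
        rw [div_self h0, Derivation.map_one_eq_zero, sub_self]
        ring
      rw [← Finset.sum_erase s hc0] at hsumc
      have hcz := ih (s.erase i₀) (by rw [Finset.card_erase_of_mem hi₀, hs]; rfl)
        (fun i hi j hj => hlog i (Finset.mem_of_mem_erase hi) j (Finset.mem_of_mem_erase hj))
        (fun i hi j hj => hne i (Finset.mem_of_mem_erase hi) j (Finset.mem_of_mem_erase hj))
        (fun i => D (a i / a i₀) + (a i / a i₀) * (D (v i) / v i - D (v i₀) / v i₀))
        (fun i hi => K.add_mem (hDK _ (hq i (Finset.mem_of_mem_erase hi)))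
          (K.mul_mem (hq i (Finset.mem_of_mem_erase hi))
            (hlog i (Finset.mem_of_mem_erase hi) i₀ hi₀))) hsumc
      have haz : ∀ i ∈ s, i ≠ i₀ → a i = 0 := by
        intro i hi hii
        by_contra hai
        have h1 : D ((a i / a i₀) * (v i / v i₀)) = 0 := by
          rw [hDx i]
          have := hcz i (Finset.mem_erase.2 ⟨hii, hi⟩)
          rw [this, zero_mul]
        have h2 := hconst _ h1
        refine hne i hi i₀ hi₀ hii ?_
        have h3 : v i / v i₀ = ((a i / a i₀) * (v i / v i₀)) / (a i / a i₀) := by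
          field_simp
        rw [h3]
        exact K.div_mem h2 (hq i hi)
      have hfin : ∑ i ∈ s, a i * v i = a i₀ * v i₀ := by
        refine Finset.sum_eq_single i₀ (fun i hi hii => ?_) fun h => absurd hi₀ h
        rw [haz i hi hii, zero_mul]
      rw [hfin] at hsum
      exact (mul_ne_zero h0 hv0) hsum
  intro s hlog a ha hsum f hf w
  -- the equivalence relation
  let S : Setoid {i // i ∈ s} :=
    { r := fun i j => v i / v j ∈ K
      iseqv := by
        refine ⟨fun i => ?_, fun {i j} h => ?_, fun {i j k} h1 h2 => ?_⟩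
        · show v i / v i ∈ K
          rw [div_self (hv _)]
          exact K.one_mem
        · show v j / v i ∈ K
          rw [← inv_div]
          exact K.inv_mem h
        · show v i / v k ∈ K
          have h3 : v i / v k = (v i / v j) * (v j / v k) := by
            have := hv j
            have := hv k
            field_simp
          rw [h3]
          exact K.mul_mem h1 h2 }
  let g : ι → ι := fun i => if h : i ∈ s then ((Quotient.mk S ⟨i, h⟩).out : {i // i ∈ s}).1 else i
  have hgs : ∀ i ∈ s, g i ∈ s := by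
    intro i hi
    show (if h : i ∈ s then ((Quotient.mk S ⟨i, h⟩).out : {i // i ∈ s}).1 else i) ∈ s
    rw [dif_pos hi]
    exact ((Quotient.mk S ⟨i, hi⟩).out : {i // i ∈ s}).2
  have hgv : ∀ i ∈ s, v i / v (g i) ∈ K := by
    intro i hi
    have h1 : v i / v (if h : i ∈ s then ((Quotient.mk S ⟨i, h⟩).out : {i // i ∈ s}).1 else i) ∈ K := by
      rw [dif_pos hi]
      exact S.symm (Quotient.mk_out (s := S) ⟨i, hi⟩)
    exact h1
  have hgeq : ∀ i ∈ s, ∀ j ∈ s, v i / v j ∈ K → g i = g j := by
    intro i hi j hj h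
    have h1 : (if h : i ∈ s then ((Quotient.mk S ⟨i, h⟩).out : {i // i ∈ s}).1 else i) =
        (if h : j ∈ s then ((Quotient.mk S ⟨j, h⟩).out : {i // i ∈ s}).1 else j) := by
      rw [dif_pos hi, dif_pos hj]
      have h2 : Quotient.mk S ⟨i, hi⟩ = Quotient.mk S ⟨j, hj⟩ := Quotient.sound h
      rw [h2]
    exact h1
  -- the coefficients of the classes
  let A : ι → M := fun c => ∑ i ∈ s.filter (fun i => g i = c), a i * (v i / v c)
  have hAv : ∀ c, A c * v c = ∑ i ∈ s.filter (fun i => g i = c), a i * v i := by
    intro c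
    show (∑ i ∈ s.filter (fun i => g i = c), a i * (v i / v c)) * v c = _
    rw [Finset.sum_mul]
    refine Finset.sum_congr rfl fun i _ => ?_
    have := hv c
    field_simp
  have hgimg : ∀ c ∈ s.image g, c ∈ s ∧ g c = c := by
    intro c hc
    obtain ⟨i, hi, rfl⟩ := Finset.mem_image.1 hc
    refine ⟨hgs i hi, ?_⟩
    exact (hgeq i hi (g i) (hgs i hi) (hgv i hi)).symm
  have hAz : ∀ c ∈ s.image g, A c = 0 := by
    refine key _ (s.image g) rfl (fun i hi j hj => hlog i (hgimg i hi).1 j (hgimg j hj).1)
      (fun i hi j hj hij h => hij ?_) A (fun c hc => ?_) ?_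
    · have := hgeq i (hgimg i hi).1 j (hgimg j hj).1 h
      rwa [(hgimg i hi).2, (hgimg j hj).2] at this
    · refine K.sum_mem fun i hi => ?_
      obtain ⟨h1, h2⟩ := Finset.mem_filter.1 hi
      refine K.mul_mem (ha i h1) ?_
      rw [← h2]
      exact hgv i h1
    · simp only [hAv]
      rw [Finset.sum_fiberwise_of_maps_to fun i hi => Finset.mem_image_of_mem g hi]
      exact hsum
  rw [← Finset.sum_fiberwise_of_maps_to (s := s.filter fun i => f i = w) (t := s.image g) (g := g)
    fun i hi => Finset.mem_image_of_mem g (Finset.mem_filter.1 hi).1]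
  refine Finset.sum_eq_zero fun c hc => ?_
  by_cases hfc : f c = w
  · have h1 : (s.filter fun i => f i = w).filter (fun i => g i = c) =
        s.filter fun i => g i = c := by
      ext i
      simp only [Finset.mem_filter]
      constructor
      · rintro ⟨⟨h1, -⟩, h2⟩
        exact ⟨h1, h2⟩
      · rintro ⟨h1, h2⟩
        refine ⟨⟨h1, ?_⟩, h2⟩
        have h3 := hgv i h1
        rw [h2] at h3
        rw [hf i h1 c (hgimg c hc).1 h3, hfc]
    rw [h1, ← hAv, hAz c hc, zero_mul]
  · refine Finset.sum_eq_zero fun i hi => ?_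
    exfalso
    simp only [Finset.mem_filter] at hi
    obtain ⟨⟨h1, h2⟩, h3⟩ := hi
    have h4 := hgv i h1
    rw [h3] at h4
    exact hfc (by rw [← hf i h1 c (hgimg c hc).1 h4, h2])

end Pool.Agent.H60S
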