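import Pool.Agent.H60S.Stm2
import Pool.Agent.Helper551.NevJ664

/-!
# Project H60S, piece POL: entire functions of logarithmic growth are polynomials
-/

set_option autoImplicit false

namespace Pool.Agent.H60S

open Real MeasureTheory

namespace Pol

theorem growth (f : ℂ → ℂ) (hf : Differentiable ℂ f) (r : ℝ) (hr : 0 < r) (w : ℂ) (hw : ‖w‖ ≤ r / 2) :
    Real.posLog ‖f w‖ ≤ 4 * circleAverage (fun z => Real.posLog ‖f z‖) 0 r := by
  have hc := NevT.J664.cont_pl f hf
  set A : ℝ → ℝ := fun x => circleAverage (fun z => Real.posLog ‖f z‖) 0 x with hA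
  have hAc : Continuous A := Real.Continuous.circleAverage hc
  have hmono : ∀ x, 0 ≤ x → x ≤ r → A x ≤ A r := by
    intro x hx hxr
    rcases hx.eq_or_lt with h0 | h0
    · subst h0
      simp only [hA, Real.circleAverage_zero]
      exact NevT.J664.submean f hf 0 r
    · have := NevT.J664.T_mono f hf x r h0 hxr
      rw [NevT.J664.T_eq_circleAverage, NevT.J664.T_eq_circleAverage] at this
      exact this
  have h1 := NevT.J664.submean_area f hf w (r / 2) (by positivity)
  have h2 : ∫ z in Metric.ball w (r / 2), Real.posLog ‖f z‖ ≤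
      ∫ z in Metric.ball (0 : ℂ) r, Real.posLog ‖f z‖ := by
    refine setIntegral_mono_set ?_ ?_ ?_
    · exact (hc.continuousOn.integrableOn_compact (isCompact_closedBall _ _)).mono_set
        Metric.ball_subset_closedBall
    · exact Filter.Eventually.of_forall fun u => Real.posLog_nonneg
    · refine (Metric.ball_subset_ball' (ε₂ := r) ?_).eventuallyLE
      rw [dist_zero_right]
      linarith
  have h3 := NevT.J664.ball_avg (fun z => Real.posLog ‖f z‖) hc 0 r
  simp only [zero_add] at h3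
  have hvol : (volume (Metric.ball (0 : ℂ) r)).toReal = Real.pi * r ^ 2 := by
    rw [Complex.volume_ball]
    simp [hr.le]
    ring
  have h4 : ∫ ζ in Metric.ball (0 : ℂ) r, circleAverage (fun z => Real.posLog ‖f z‖) 0 ‖ζ‖ ≤
      ∫ ζ in Metric.ball (0 : ℂ) r, A r := by
    refine setIntegral_mono_on ?_ ?_ measurableSet_ball ?_
    · exact ((hAc.comp continuous_norm).continuousOn.integrableOn_compact
        (isCompact_closedBall (0 : ℂ) r)).mono_set Metric.ball_subset_closedBall
    · exact (continuous_const.continuousOn.integrableOn_compact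
        (isCompact_closedBall (0 : ℂ) r)).mono_set Metric.ball_subset_closedBall
    · intro ζ hζ
      rw [Metric.mem_ball, dist_zero_right] at hζ
      exact hmono _ (norm_nonneg _) hζ.le
  have h5 : ∫ ζ in Metric.ball (0 : ℂ) r, A r = Real.pi * r ^ 2 * A r := by
    rw [setIntegral_const, smul_eq_mul, Measure.real, hvol]
  have h6 : (Real.pi * (r / 2) ^ 2) * Real.posLog ‖f w‖ ≤ Real.pi * r ^ 2 * A r := by
    linarith
  have h7 : 0 < Real.pi * (r / 2) ^ 2 := by positivity
  refine le_of_mul_le_mul_left ?_ h7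
  calc _ ≤ Real.pi * r ^ 2 * A r := h6
    _ = Real.pi * (r / 2) ^ 2 * (4 * A r) := by ring

theorem le_exp (x : ℝ) (hx : 0 ≤ x) : x ≤ Real.exp (Real.posLog x) := by
  rcases hx.eq_or_lt with h | h
  · subst h; positivity
  · calc x = Real.exp (Real.log x) := (Real.exp_log h).symm
      _ ≤ _ := Real.exp_le_exp.mpr (le_max_right _ _)

theorem deriv_zero (f : ℂ → ℂ) (hf : Differentiable ℂ f) (D C : ℝ)
    (h : ∀ R : ℝ, ∃ r, R ≤ r ∧ circleAverage (fun z => Real.posLog ‖f z‖) 0 r ≤ D * Real.log r + C)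
    (k : ℕ) (hk : 4 * |D| < k) : iteratedDeriv k f 0 = 0 := by
  by_contra hne
  have hpos : 0 < ‖iteratedDeriv k f 0‖ := norm_pos_iff.mpr hne
  set K : ℝ := k.factorial * (Real.exp (4 * C) * 2 ^ k) with hK
  have hK0 : 0 < K := by positivity
  have ht : Filter.Tendsto (fun r : ℝ => K * r ^ (-(k - 4 * |D|))) Filter.atTop (nhds (K * 0)) :=
    (tendsto_rpow_neg_atTop (by linarith)).const_mul K
  rw [mul_zero] at ht
  obtain ⟨R₀, hR₀⟩ := Filter.eventually_atTop.mp (ht.eventually (gt_mem_nhds hpos))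
  obtain ⟨r, hr, hA⟩ := h (max R₀ 1)
  have hr1 : 1 ≤ r := (le_max_right _ _).trans hr
  have hr0 : 0 < r := by linarith
  have hr2 := hR₀ r ((le_max_left _ _).trans hr)
  have hbd : ∀ z ∈ Metric.sphere (0 : ℂ) (r / 2), ‖f z‖ ≤ Real.exp (4 * C) * r ^ (4 * |D|) := by
    intro z hz
    rw [mem_sphere_zero_iff_norm] at hz
    have h1 := growth f hf r hr0 z hz.le
    have hlog : 0 ≤ Real.log r := Real.log_nonneg hr1
    calc ‖f z‖ ≤ Real.exp (Real.posLog ‖f z‖) := le_exp _ (norm_nonneg _)
      _ ≤ Real.exp (4 * C + Real.log r * (4 * |D|)) := by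
          apply Real.exp_le_exp.mpr
          have h2 : D * Real.log r ≤ |D| * Real.log r :=
            mul_le_mul_of_nonneg_right (le_abs_self D) hlog
          linarith
      _ = Real.exp (4 * C) * r ^ (4 * |D|) := by
          rw [Real.exp_add, Real.rpow_def_of_pos hr0]
  have h3 := Complex.norm_iteratedDeriv_le_of_forall_mem_sphere_norm_le k (by positivity)
    (hf.diffContOnCl) hbd
  have h4 : (k.factorial : ℝ) * (Real.exp (4 * C) * r ^ (4 * |D|)) / (r / 2) ^ k =
      K * r ^ (-(k - 4 * |D|)) := by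
    rw [neg_sub, Real.rpow_sub hr0, Real.rpow_natCast, hK, div_pow]
    field_simp
  rw [h4] at h3
  linarith

theorem pol (f : ℂ → ℂ) (hf : Differentiable ℂ f) (D C : ℝ)
    (h : ∀ R : ℝ, ∃ r, R ≤ r ∧ circleAverage (fun z => Real.posLog ‖f z‖) 0 r ≤ D * Real.log r + C) :
    ∃ q : Polynomial ℂ, (q.natDegree : ℝ) ≤ 4 * |D| ∧ ∀ z, f z = q.eval z := by
  set N : ℕ := ⌊4 * |D|⌋₊ with hN
  have hND : (N : ℝ) ≤ 4 * |D| := Nat.floor_le (by positivity)
  have hz : ∀ n, n ∉ Finset.range (N + 1) → iteratedDeriv n f 0 = 0 := by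
    intro n hn
    rw [Finset.mem_range, not_lt] at hn
    apply deriv_zero f hf D C h n
    have : ⌊4 * |D|⌋₊ < n := by omega
    exact (Nat.floor_lt (by positivity)).mp this
  refine ⟨∑ n ∈ Finset.range (N + 1), Polynomial.C ((n.factorial : ℂ)⁻¹ * iteratedDeriv n f 0) *
    Polynomial.X ^ n, ?_, ?_⟩
  · refine le_trans ?_ hND
    have : (∑ n ∈ Finset.range (N + 1), Polynomial.C ((n.factorial : ℂ)⁻¹ * iteratedDeriv n f 0) *
      Polynomial.X ^ n).natDegree ≤ N := by
      refine Polynomial.natDegree_sum_le_of_forall_le _ _ fun n hn => ?_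
      refine (Polynomial.natDegree_C_mul_X_pow_le _ _).trans ?_
      rw [Finset.mem_range] at hn
      omega
    exact_mod_cast this
  · intro z
    have h1 := Complex.taylorSeries_eq_of_entire' (f := f) (c := 0) z hf
    rw [← h1, tsum_eq_sum (s := Finset.range (N + 1))]
    · rw [Polynomial.eval_finsetSum]
      refine Finset.sum_congr rfl fun n _ => ?_
      simp
    · intro n hn
      rw [hz n hn]
      simp

end Pol

theorem t_POL : S_POL := Pol.pol

end Pool.Agent.H60S
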