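import Pool.Agent.H60S.Stm2
import Pool.Agent.H159R3.NV.Factor

/-!
# Project H60S, piece RAT: curves of logarithmic growth are rational

The quotients `f j = g j / v` by a zero free entire function `v` with `g l = P Z * v` have
`log⁺ ‖f j‖ ≤ log ‖g‖ - log ‖v‖` on large circles, because `‖P Z‖ ≥ 1` there.
-/

set_option autoImplicit false

namespace Pool.Agent.H60S

open Real MeasureTheory

namespace Rat

open Pool.Agent.H159R3.NV Metric Filter Set

theorem mono_cod {f₁ f₂ : ℂ → ℝ} {r : ℝ} (hr : r ≠ 0)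
    (h1 : CircleIntegrable f₁ 0 r) (h2 : CircleIntegrable f₂ 0 r)
    (h : ∀ᶠ w in codiscreteWithin (sphere (0:ℂ) |r|), f₁ w ≤ f₂ w) :
    circleAverage f₁ 0 r ≤ circleAverage f₂ 0 r := by
  unfold circleAverage
  rw [smul_eq_mul, smul_eq_mul]
  apply mul_le_mul_of_nonneg_left _ (by positivity)
  apply intervalIntegral.integral_mono_ae_restrict (by positivity) h1 h2
  have h3 : (circleMap 0 r) ⁻¹' {w | f₁ w ≤ f₂ w} ∈ codiscrete ℝ :=
    circleMap_preimage_codiscrete hr h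
  have h4 : ∀ᵐ x ∂(volume.restrict (Icc 0 (2 * π))), x ∈ (circleMap 0 r) ⁻¹' {w | f₁ w ≤ f₂ w} :=
    ae_restrict_le_codiscreteWithin measurableSet_Icc (codiscreteWithin_mono (by tauto) h3)
  exact h4

/-- the characteristic of the curve -/
noncomputable def Tg {n : ℕ} (g : Fin (n + 1) → ℂ → ℂ) (r : ℝ) : ℝ :=
  circleAverage (fun z => Real.log ‖fun j => g j z‖) 0 r

variable {n : ℕ} {g : Fin (n + 1) → ℂ → ℂ}

theorem cont (hg : ∀ j, Differentiable ℂ (g j)) :
    Continuous fun z => (fun j => g j z : Fin (n + 1) → ℂ) :=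
  continuous_pi fun j => (hg j).continuous

theorem pos (h0 : ∀ z, ∃ j, g j z ≠ 0) (z : ℂ) : 0 < ‖(fun j => g j z : Fin (n + 1) → ℂ)‖ := by
  rw [norm_pos_iff]
  intro h
  obtain ⟨j, hj⟩ := h0 z
  exact hj (congrFun h j)

theorem cI (hg : ∀ j, Differentiable ℂ (g j)) (h0 : ∀ z, ∃ j, g j z ≠ 0) (r : ℝ) :
    CircleIntegrable (fun z => Real.log ‖fun j => g j z‖) 0 r := by
  apply ContinuousOn.circleIntegrable'
  apply Continuous.continuousOn
  exact Continuous.log (cont hg).norm fun z => (pos h0 z).ne'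

/-- the number of the factors is at most `D` -/
theorem len_le (hg : ∀ j, Differentiable ℂ (g j)) (h0 : ∀ z, ∃ j, g j z ≠ 0) {D C : ℝ}
    (hT : ∀ R : ℝ, ∃ r, R ≤ r ∧ Tg g r ≤ D * Real.log r + C) (l : Fin (n + 1)) (hl : g l 0 ≠ 0)
    (Z : List ℂ) (v : ℂ → ℂ) (hv : Differentiable ℂ v) (hZ : ∀ z, g l z = P Z z * v z) :
    (Z.length : ℝ) ≤ D := by
  obtain ⟨ρ, hρ, hZρ⟩ : ∃ ρ : ℝ, 1 ≤ ρ ∧ ∀ a ∈ Z, ‖a‖ ≤ ρ := by
    clear hZ
    induction Z with
    | nil => exact ⟨1, le_rfl, by simp⟩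
    | cons a Z ih =>
      obtain ⟨ρ, h1, h2⟩ := ih
      refine ⟨max ρ ‖a‖, h1.trans (le_max_left _ _), ?_⟩
      intro b hb
      rcases List.mem_cons.mp hb with rfl | hb
      · exact le_max_right _ _
      · exact (h2 b hb).trans (le_max_left _ _)
  have hρ0 : 0 < ρ := by linarith
  by_contra hcon
  push Not at hcon
  set K : ℝ := C - Real.log ‖g l 0‖ + Z.length * Real.log ρ with hK
  have ht : Tendsto (fun r : ℝ => ((Z.length : ℝ) - D) * Real.log r) atTop atTop :=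
    Tendsto.const_mul_atTop (by linarith) Real.tendsto_log_atTop
  obtain ⟨R₀, hR₀⟩ := eventually_atTop.mp (ht.eventually (eventually_gt_atTop K))
  obtain ⟨r, hr, hA⟩ := hT (max R₀ (ρ + 1))
  have hr1 : ρ + 1 ≤ r := (le_max_right _ _).trans hr
  have hr2 := hR₀ r ((le_max_left _ _).trans hr)
  have hr0 : 0 < r := by linarith
  have hne : P Z 0 * v 0 ≠ 0 := by rw [← hZ]; exact hl
  have h1 := count_le Z v hv hρ0 (by linarith : ρ < r) hZρ hne
  have e : (fun z => P Z z * v z) = g l := funext fun z => (hZ z).symm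
  rw [e, ← hZ, Real.log_div hr0.ne' hρ0.ne'] at h1
  have h2 : L (g l) r ≤ Tg g r := by
    unfold L Tg
    refine mono_cod hr0.ne' (ci_log (mero_of_diff (hg l)) r) (cI hg h0 r) ?_
    filter_upwards [ne_cod (hg l) hl r] with z hz
    exact Real.log_le_log (norm_pos_iff.mpr hz)
      (norm_le_pi_norm (fun j => g j z : Fin (n + 1) → ℂ) l)
  linarith

/-- the maximal factorization -/
theorem exists_max (hg : ∀ j, Differentiable ℂ (g j)) (h0 : ∀ z, ∃ j, g j z ≠ 0) {D C : ℝ}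
    (hT : ∀ R : ℝ, ∃ r, R ≤ r ∧ Tg g r ≤ D * Real.log r + C) (l : Fin (n + 1)) (hl : g l 0 ≠ 0) :
    ∃ (Z : List ℂ) (v : ℂ → ℂ), Differentiable ℂ v ∧ (∀ z, g l z = P Z z * v z) ∧ ∀ z, v z ≠ 0 := by
  by_contra hcon
  have step : ∀ m : ℕ, ∃ (Z : List ℂ) (v : ℂ → ℂ), Z.length = m ∧ Differentiable ℂ v ∧
      ∀ z, g l z = P Z z * v z := by
    intro m
    induction m with
    | zero => exact ⟨[], g l, rfl, hg l, fun z => by rw [P_nil, one_mul]⟩
    | succ m ih =>
      obtain ⟨Z, v, hlen, hv, hfac⟩ := ih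
      have h1 : ∃ a, v a = 0 := by
        by_contra hne
        push Not at hne
        exact hcon ⟨Z, v, hv, hfac, hne⟩
      obtain ⟨a, ha⟩ := h1
      refine ⟨a :: Z, dslope v a, by simp [hlen], dslope_diff hv a, fun z => ?_⟩
      rw [hfac z, P_cons, dslope_fac ha z]
      ring
  obtain ⟨m, hm⟩ := exists_nat_gt D
  obtain ⟨Z, v, hlen, hv, hfac⟩ := step m
  have := len_le hg h0 hT l hl Z v hv hfac
  rw [hlen] at this
  linarith

theorem one_le_P (Z : List ℂ) : ∃ ρ : ℝ, 1 ≤ ρ ∧ ∀ z, ρ ≤ ‖z‖ → 1 ≤ ‖P Z z‖ := by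
  induction Z with
  | nil => exact ⟨1, le_rfl, fun z _ => by rw [P_nil]; simp⟩
  | cons a Z ih =>
    obtain ⟨ρ, h1, h2⟩ := ih
    refine ⟨max ρ (‖a‖ + 1), h1.trans (le_max_left _ _), fun z hz => ?_⟩
    have h3 := h2 z ((le_max_left _ _).trans hz)
    have h4 : ‖a‖ + 1 ≤ ‖z‖ := (le_max_right _ _).trans hz
    have h5 : 1 ≤ ‖z - a‖ := by
      have := norm_sub_norm_le z a
      linarith
    rw [P_cons, norm_mul]
    exact one_le_mul_of_one_le_of_one_le h5 h3

theorem rat (hPOL : ∀ f : ℂ → ℂ, Differentiable ℂ f → ∀ D C : ℝ,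
    (∀ R : ℝ, ∃ r, R ≤ r ∧ circleAverage (fun z => log⁺ ‖f z‖) 0 r ≤ D * Real.log r + C) →
    ∃ q : Polynomial ℂ, (q.natDegree : ℝ) ≤ 4 * |D| ∧ ∀ z, f z = q.eval z)
    (hg : ∀ j, Differentiable ℂ (g j)) (h0 : ∀ z, ∃ j, g j z ≠ 0) (D C : ℝ) (hD : 0 ≤ D)
    (hT : ∀ R : ℝ, ∃ r, R ≤ r ∧ Tg g r ≤ D * Real.log r + C) :
    ∃ (q : Fin (n + 1) → Polynomial ℂ) (v : ℂ → ℂ), (∀ j, ((q j).natDegree : ℝ) ≤ 8 * D) ∧
      (∀ z, v z ≠ 0) ∧ ∀ j z, g j z = v z * (q j).eval z := by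
  obtain ⟨l, hl⟩ := h0 0
  obtain ⟨Z, v, hv, hfac, hne⟩ := exists_max hg h0 hT l hl
  obtain ⟨ρ, hρ1, hρ⟩ := one_le_P Z
  have hf : ∀ j, Differentiable ℂ (fun z => g j z / v z) := fun j => (hg j).div hv hne
  have hq : ∀ j, ∃ q : Polynomial ℂ, (q.natDegree : ℝ) ≤ 4 * |D| ∧ ∀ z, g j z / v z = q.eval z := by
    intro j
    refine hPOL _ (hf j) D (C - Real.log ‖v 0‖) fun R => ?_
    obtain ⟨r, hr, hA⟩ := hT (max R ρ)
    refine ⟨r, (le_max_left _ _).trans hr, ?_⟩
    have hrρ : ρ ≤ r := (le_max_right _ _).trans hr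
    have hr0 : 0 < r := by linarith
    have hJ : circleAverage (fun z => Real.log ‖v z‖) 0 r = Real.log ‖v 0‖ :=
      AnalyticOnNhd.circleAverage_log_norm_of_ne_zero (fun z _ => hv.analyticAt z)
        (fun z _ => hne z)
    have hci : CircleIntegrable (fun z => Real.log ‖v z‖) 0 r := by
      apply ContinuousOn.circleIntegrable'
      apply Continuous.continuousOn
      exact Continuous.log hv.continuous.norm fun z => norm_ne_zero_iff.mpr (hne z)
    have h1 : circleAverage (fun z => log⁺ ‖g j z / v z‖) 0 r ≤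
        circleAverage (fun z => Real.log ‖fun j => g j z‖ - Real.log ‖v z‖) 0 r := by
      refine Real.circleAverage_mono ?_ ((cI hg h0 r).sub hci) ?_
      · exact (Real.continuous_posLog.comp (hf j).continuous.norm).continuousOn.circleIntegrable'
      · intro z hz
        rw [abs_of_pos hr0, mem_sphere_zero_iff_norm] at hz
        have hvz : 0 < ‖v z‖ := norm_pos_iff.mpr (hne z)
        have hgz := pos h0 z
        have e1 : ‖g j z‖ ≤ ‖(fun j => g j z : Fin (n + 1) → ℂ)‖ :=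
          norm_le_pi_norm (fun j => g j z : Fin (n + 1) → ℂ) j
        have e2 : ‖g l z‖ ≤ ‖(fun j => g j z : Fin (n + 1) → ℂ)‖ :=
          norm_le_pi_norm (fun j => g j z : Fin (n + 1) → ℂ) l
        have e3 : ‖v z‖ ≤ ‖(fun j => g j z : Fin (n + 1) → ℂ)‖ := by
          refine le_trans ?_ e2
          rw [hfac z, norm_mul]
          exact le_mul_of_one_le_left hvz.le (hρ z (by rw [hz]; exact hrρ))
        rw [← Real.log_div hgz.ne' hvz.ne', posLog_apply]
        apply max_le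
        · exact Real.log_nonneg ((one_le_div₀ hvz).mpr e3)
        · rw [norm_div]
          rcases eq_or_lt_of_le (norm_nonneg (g j z)) with h6 | h6
          · rw [← h6, zero_div, Real.log_zero]
            exact Real.log_nonneg ((one_le_div₀ hvz).mpr e3)
          · exact Real.log_le_log (by positivity) (div_le_div_of_nonneg_right e1 hvz.le)
    rw [circleAverage_fun_sub (cI hg h0 r) hci, hJ] at h1
    unfold Tg at hA
    linarith
  choose q hq1 hq2 using hq
  refine ⟨q, v, fun j => ?_, hne, fun j z => ?_⟩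
  · have := hq1 j
    rw [abs_of_nonneg hD] at this
    linarith
  · rw [← hq2 j z, mul_div_cancel₀ _ (hne z)]

end Rat

theorem t_RAT : S_POL → S_RAT := by
  intro hPOL n g hg h0 D C hD hT
  exact Rat.rat hPOL hg h0 D C hD hT

end Pool.Agent.H60S
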