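import Pool.Agent.H60S.Stm

/-!
Piece VEC: bounded generic integer vectors orthogonal to a bounded set.
-/

set_option autoImplicit false

namespace Pool.Agent.H60S

/-- one vector orthogonal to `R` but not to `q` -/
theorem vec_one {m : ℕ} (R : Set (Fin m → ℤ)) (q : Fin m → ℤ)
    (hq : ¬ ∃ N : ℕ, 0 < N ∧ N • q ∈ AddSubgroup.closure R) :
    ∃ b : Fin m → ℤ, (∀ r ∈ R, ∑ i, r i * b i = 0) ∧ ∑ i, q i * b i ≠ 0 := by
  classical
  let cst : (Fin m → ℤ) →+ (Fin m → ℚ) :=
    { toFun := fun v i => (v i : ℚ)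
      map_zero' := by
        funext i
        simp
      map_add' := by
        intro x y
        funext i
        simp }
  have hcst : ∀ (v : Fin m → ℤ) (i : Fin m), cst v i = (v i : ℚ) := fun _ _ => rfl
  have key : ∀ x ∈ Submodule.span ℚ (cst '' R),
      ∃ N : ℕ, 0 < N ∧ ∃ y ∈ AddSubgroup.closure R, (N : ℚ) • x = cst y := by
    intro x hx
    induction hx using Submodule.span_induction with
    | mem x hx =>
      obtain ⟨r, hr, rfl⟩ := hx
      exact ⟨1, one_pos, r, AddSubgroup.subset_closure hr, by simp⟩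
    | zero => exact ⟨1, one_pos, 0, zero_mem _, by simp⟩
    | add x y _ _ hx hy =>
      obtain ⟨N, hN, u, hu, e⟩ := hx
      obtain ⟨M, hM, v, hv, f⟩ := hy
      refine ⟨N * M, Nat.mul_pos hN hM, M • u + N • v,
        add_mem (nsmul_mem hu _) (nsmul_mem hv _), ?_⟩
      rw [map_add, map_nsmul, map_nsmul, ← e, ← f]
      funext i
      simp only [Pi.smul_apply, Pi.add_apply, smul_eq_mul, nsmul_eq_mul, Pi.mul_apply,
        Pi.natCast_apply]
      push_cast
      ring
    | smul a x _ hx =>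
      obtain ⟨N, hN, u, hu, e⟩ := hx
      refine ⟨a.den * N, Nat.mul_pos a.pos hN, a.num • u, zsmul_mem hu _, ?_⟩
      rw [map_zsmul, ← e]
      funext i
      simp only [Pi.smul_apply, smul_eq_mul, zsmul_eq_mul]
      push_cast
      have h1 : (a.den : ℚ) * a = a.num := Rat.den_mul_eq_num a
      linear_combination ((N : ℚ) * x i) * h1
  have hW : cst q ∉ Submodule.span ℚ (cst '' R) := by
    intro h
    apply hq
    obtain ⟨N, hN, y, hy, e⟩ := key _ h
    refine ⟨N, hN, ?_⟩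
    have h1 : N • q = y := by
      funext i
      have h2 := congrFun e i
      rw [hcst, Pi.smul_apply, hcst, smul_eq_mul] at h2
      rw [Pi.smul_apply, nsmul_eq_mul]
      exact_mod_cast h2
    rw [h1]
    exact hy
  obtain ⟨φ, hφ, hker⟩ := Submodule.exists_le_ker_of_notMem hW
  have hb : ∀ i : Fin m, ∃ z : ℤ,
      (z : ℚ) = ((∏ j, (φ (Pi.single j 1)).den : ℕ) : ℚ) * φ (Pi.single i 1) := by
    intro i
    refine ⟨((∏ j ∈ Finset.univ.erase i, (φ (Pi.single j 1)).den : ℕ) : ℤ) *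
      (φ (Pi.single i 1)).num, ?_⟩
    rw [← Finset.mul_prod_erase Finset.univ _ (Finset.mem_univ i)]
    have h1 := Rat.den_mul_eq_num (φ (Pi.single i 1))
    push_cast
    rw [← h1]
    ring
  choose b hb using hb
  have hd : ((∏ j, (φ (Pi.single j 1)).den : ℕ) : ℚ) ≠ 0 :=
    Nat.cast_ne_zero.2 (Finset.prod_ne_zero_iff.2 fun j _ => (φ (Pi.single j 1)).den_nz)
  have hsum : ∀ v : Fin m → ℤ, ((∑ i, v i * b i : ℤ) : ℚ) =
      ((∏ j, (φ (Pi.single j 1)).den : ℕ) : ℚ) * φ (cst v) := by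
    intro v
    have h1 : cst v = ∑ i, (v i : ℚ) • (Pi.single i (1 : ℚ) : Fin m → ℚ) := by
      funext j
      rw [Finset.sum_apply, hcst]
      simp [Pi.single_apply]
    rw [h1, map_sum, Finset.mul_sum, Int.cast_sum]
    refine Finset.sum_congr rfl fun i _ => ?_
    rw [map_smul, smul_eq_mul, Int.cast_mul, hb]
    ring
  refine ⟨b, fun r hr => ?_, fun h => ?_⟩
  · have h1 : φ (cst r) = 0 :=
      LinearMap.mem_ker.1 (hker (Submodule.subset_span ⟨r, hr, rfl⟩))
    have h2 := hsum r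
    rw [h1, mul_zero] at h2
    exact_mod_cast h2
  · have h2 := hsum q
    rw [h, Int.cast_zero] at h2
    exact hφ ((mul_eq_zero.1 h2.symm).resolve_left hd)

/-- one vector orthogonal to `R` but not to the elements of `Q` -/
theorem vec_fin {m : ℕ} (R : Set (Fin m → ℤ)) (Q : Finset (Fin m → ℤ))
    (hQ : ∀ q ∈ Q, ¬ ∃ N : ℕ, 0 < N ∧ N • q ∈ AddSubgroup.closure R) :
    ∃ b : Fin m → ℤ, (∀ r ∈ R, ∑ i, r i * b i = 0) ∧ ∀ q ∈ Q, ∑ i, q i * b i ≠ 0 := by
  classical
  induction Q using Finset.induction_on with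
  | empty => exact ⟨0, by simp, by simp⟩
  | insert q₀ Q hq₀ ih =>
    obtain ⟨b, hb, hb'⟩ := ih fun q hq => hQ q (Finset.mem_insert_of_mem hq)
    by_cases h0 : ∑ i, q₀ i * b i = 0
    · obtain ⟨b₀, h1, h2⟩ := vec_one R q₀ (hQ q₀ (Finset.mem_insert_self _ _))
      obtain ⟨T, hT⟩ : ∃ T : ℤ, T = ∑ q ∈ Q, |∑ i, q i * b₀ i| + 1 := ⟨_, rfl⟩
      have e : ∀ v : Fin m → ℤ,
          ∑ i, v i * (T * b i + b₀ i) = T * ∑ i, v i * b i + ∑ i, v i * b₀ i := by
        intro v
        rw [Finset.mul_sum, ← Finset.sum_add_distrib]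
        exact Finset.sum_congr rfl fun i _ => by ring
      refine ⟨fun i => T * b i + b₀ i, fun r hr => ?_, fun q hq => ?_⟩
      · rw [e, hb r hr, h1 r hr]
        simp
      · rw [e]
        rcases Finset.mem_insert.1 hq with rfl | hq
        · rw [h0, mul_zero, zero_add]
          exact h2
        · have h3 := hb' q hq
          have h4 : |∑ i, q i * b₀ i| < T := by
            have h5 := Finset.single_le_sum (f := fun q : Fin m → ℤ => |∑ i, q i * b₀ i|)
              (fun _ _ => abs_nonneg _) hq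
            rw [hT]
            linarith
          intro h5
          have h6 : |T * ∑ i, q i * b i| = |∑ i, q i * b₀ i| := by
            rw [eq_neg_of_add_eq_zero_left h5, abs_neg]
          rw [abs_mul] at h6
          have h7 : 1 ≤ |∑ i, q i * b i| := Int.one_le_abs h3
          have h8 : 0 < T := lt_of_le_of_lt (abs_nonneg _) h4
          rw [abs_of_pos h8] at h6
          nlinarith
    · refine ⟨b, hb, fun q hq => ?_⟩
      rcases Finset.mem_insert.1 hq with rfl | hq
      · exact h0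
      · exact hb' q hq

theorem t_VEC : S_VEC := by
  classical
  intro m M
  have hbox : {q : Fin m → ℤ | ∀ i, |q i| ≤ (M : ℤ)}.Finite := by
    have h2 : {q : Fin m → ℤ | ∀ i, |q i| ≤ (M : ℤ)} ⊆
        Set.pi Set.univ fun _ => Set.Icc (-(M : ℤ)) M := by
      intro q hq i _
      exact abs_le.1 (hq i)
    exact (Set.Finite.pi' fun _ => Set.finite_Icc _ _).subset fun q hq i => h2 hq i (Set.mem_univ i)
  have h1 : ∀ R : Set (Fin m → ℤ), ∃ B : ℕ, ∃ b : Fin m → ℤ, (∀ i, |b i| ≤ (B : ℤ)) ∧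
      (∀ q ∈ R, ∑ i, q i * b i = 0) ∧
      ∀ q : Fin m → ℤ, (∀ i, |q i| ≤ (M : ℤ)) → ∑ i, q i * b i = 0 →
        ∃ N : ℕ, 0 < N ∧ N • q ∈ AddSubgroup.closure R := by
    intro R
    obtain ⟨b, h2, h3⟩ := vec_fin R
      (hbox.toFinset.filter fun q => ¬ ∃ N : ℕ, 0 < N ∧ N • q ∈ AddSubgroup.closure R)
      (fun q hq => (Finset.mem_filter.1 hq).2)
    refine ⟨Finset.univ.sup fun i => (b i).natAbs, b, fun i => ?_, h2, fun q hq h4 => ?_⟩
    · rw [Int.abs_eq_natAbs]
      exact_mod_cast Finset.le_sup (f := fun i => (b i).natAbs) (Finset.mem_univ i)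
    · by_contra h5
      exact h3 q (Finset.mem_filter.2 ⟨hbox.mem_toFinset.2 hq, h5⟩) h4
  choose B hB using h1
  refine ⟨hbox.finite_subsets.toFinset.sup B, fun R hR => ?_⟩
  obtain ⟨b, h2, h3, h4⟩ := hB R
  refine ⟨b, fun i => (h2 i).trans ?_, h3, h4⟩
  have h6 : B R ≤ hbox.finite_subsets.toFinset.sup B :=
    Finset.le_sup ((Set.Finite.mem_toFinset _).2 fun q hq => hR q hq)
  exact_mod_cast h6

end Pool.Agent.H60S
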